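import Pool.Agent.Q303.FW.Square
import Pool.Agent.Q303.FWM.Glue
import Pool.Agent.Q303.FWM.TaskCCC
import Pool.Agent.Q303.FWM.TaskUnc
import Pool.Agent.Q303.FWM.TaskMA

set_option autoImplicit false

/-!
# Squares of Lindelöf trees

If `𝔡 = ℵ₁` (so under `CH`) there is a tree, with all nodes at levels `≤ ω`, which is Lindelöf in
the fine wedge topology and whose square is not Lindelöf.  Under Martin's axiom for `ℵ₁` dense sets
every tree which is Lindelöf in the fine wedge topology has a Lindelöf square.
-/

open Set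

namespace Pool.Agent.Results.MP_2757db_lc.Independence

/-- A tree: the predecessors of every node are well ordered. -/
def IsTree (T : Type) [PartialOrder T] : Prop :=
  ∀ x : T, IsWellOrder {y : T // y < x} (fun a b => a < b)

/-- The height of a node `x` of a tree: the order type of the set of the nodes below `x`. -/
noncomputable def height {T : Type} [PartialOrder T] (hT : IsTree T) (x : T) : Ordinal.{0} :=
  @Ordinal.type {y : T // y < x} (fun a b => a < b) (hT x)

/-- The fine wedge topology: the sets `{s | t ≤ s}` and their complements are a subbase. -/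
def fineWedge (T : Type) [PartialOrder T] : TopologicalSpace T :=
  TopologicalSpace.generateFrom
    ({U | ∃ t : T, U = {s | t ≤ s}} ∪ {U | ∃ t : T, U = {s | t ≤ s}ᶜ})

/-- The tree is Lindelöf in the fine wedge topology. -/
def IsLindelofTree (T : Type) [PartialOrder T] : Prop := @LindelofSpace T (fineWedge T)

/-- The square of the tree is Lindelöf in the product of the fine wedge topologies. -/
def IsLindelofSquare (T : Type) [PartialOrder T] : Prop :=
  @LindelofSpace (T × T) (@instTopologicalSpaceProd T T (fineWedge T) (fineWedge T))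

/-- `𝔡 = ℵ₁`: some family of `ℵ₁` functions is dominating.  (No countable family is.) -/
def DominatingNumberEqAlephOne : Prop :=
  ∃ F : Set (ℕ → ℕ), Cardinal.mk F = Cardinal.aleph 1 ∧
    ∀ g : ℕ → ℕ, ∃ f ∈ F, ∃ m, ∀ n, m ≤ n → g n ≤ f n

/-- Every set of pairwise incompatible elements of `P` is countable. -/
def IsCCC (P : Type) [PartialOrder P] : Prop :=
  ∀ A : Set P, (∀ p ∈ A, ∀ q ∈ A, p ≠ q → ¬ ∃ r, r ≤ p ∧ r ≤ q) → A.Countable

/-- Martin's axiom for `ℵ₁` dense sets: for every nonempty partial order with the countable chain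
condition and every family of at most `ℵ₁` dense sets there is a filter which meets all of them. -/
def MartinAxiomAlephOne : Prop := ∀ (P : Type) [PartialOrder P] [Nonempty P], IsCCC P →
  ∀ D : Set (Set P), Cardinal.mk D ≤ Cardinal.aleph 1 → (∀ d ∈ D, ∀ p, ∃ q ∈ d, q ≤ p) →
    ∃ G : Set P, (∀ p ∈ G, ∀ q, p ≤ q → q ∈ G) ∧ (∀ p ∈ G, ∀ q ∈ G, ∃ r ∈ G, r ≤ p ∧ r ≤ q) ∧
      ∀ d ∈ D, ∃ p ∈ G, p ∈ d

open Pool.Agent.Q303

/-- **Squares of Lindelöf trees.** -/
theorem result :
    -- (0) the continuum hypothesis implies `𝔡 = ℵ₁`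
    ((Cardinal.aleph 1 : Cardinal.{0}) = Cardinal.continuum → DominatingNumberEqAlephOne) ∧
    -- (1) if `𝔡 = ℵ₁`, a Lindelöf tree with nodes at levels `≤ ω` whose square is not Lindelöf
    (DominatingNumberEqAlephOne → ∃ (T : Type) (_ : PartialOrder T) (hT : IsTree T),
      (∀ x : T, height hT x ≤ Ordinal.omega0) ∧ IsLindelofTree T ∧ ¬ IsLindelofSquare T) ∧
    -- (2) under Martin's axiom for `ℵ₁` dense sets, all Lindelöf trees have Lindelöf squares
    (MartinAxiomAlephOne → ∀ (T : Type) [PartialOrder T], IsTree T → IsLindelofTree T →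
      IsLindelofSquare T) := by
  refine ⟨fun h => ?_, fun h => ?_, fun ma T _ hT hL => ?_⟩
  · obtain ⟨F, hF, hdom⟩ := FW.dominating_of_ch h
    refine ⟨F, hF, fun g => ?_⟩
    obtain ⟨f, hf, hgf⟩ := hdom g
    exact ⟨f, hf, Filter.eventually_atTop.1 hgf⟩
  · have hD : FW.Dominating := by
      obtain ⟨F, hF, hdom⟩ := h
      refine ⟨F, hF, fun g => ?_⟩
      obtain ⟨f, hf, hgf⟩ := hdom g
      exact ⟨f, hf, Filter.eventually_atTop.2 hgf⟩
    obtain ⟨Ω, hΩ, n, hn, hbad⟩ := FW.exists_family hD
    refine ⟨FW.Node (FW.AA n), inferInstance, FW.Node.isTree, fun x => ?_, ?_, ?_⟩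
    · have hfin : ∀ y : {y : FW.Node (FW.AA n) // y < x}, FW.Node.len y.1 < FW.Node.len x := by
        intro y
        refine lt_of_le_of_ne (FW.Node.len_mono y.2.le) fun e => ?_
        exact absurd (FW.Node.le_of_len le_rfl y.2.le (le_of_eq e.symm)) (not_le_of_gt y.2)
      have hlt : ∀ y z : {y : FW.Node (FW.AA n) // y < x}, y < z →
          FW.Node.len y.1 < FW.Node.len z.1 := by
        intro y z hyz
        have hyz' : y.1 < z.1 := hyz
        refine lt_of_le_of_ne (FW.Node.len_mono hyz'.le) fun e => ?_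
        exact absurd (FW.Node.le_of_len le_rfl hyz'.le (le_of_eq e.symm)) (not_le_of_gt hyz')
      have hne : ∀ y : {y : FW.Node (FW.AA n) // y < x}, FW.Node.len y.1 ≠ ⊤ :=
        fun y => ne_top_of_lt (hfin y)
      haveI := FW.Node.isTree x
      have f : (fun a b : {y : FW.Node (FW.AA n) // y < x} => a < b) ↪r
          (fun a b : ℕ => a < b) := by
        refine RelEmbedding.ofMonotone (fun y => (FW.Node.len y.1).toNat) ?_
        intro a b hab
        have h1 := hlt a b hab
        rw [← ENat.coe_toNat (hne a), ← ENat.coe_toNat (hne b), Nat.cast_lt] at h1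
        exact h1
      have h2 := f.ordinal_type_le
      rw [show Ordinal.type (fun a b : ℕ => a < b) = Ordinal.omega0 from
        Ordinal.type_nat_lt] at h2
      exact h2
    · exact FW.Node.lindelof (FW.AA_countable hn hbad)
    · exact FW.not_lindelof hn hbad
  · letI : TopologicalSpace T := fineWedge T
    haveI : LindelofSpace T := hL
    have hs : FWM.Small T := by
      refine FWM.small_of (T := T) FWM.TaskCCC.main FWM.TaskUnc.main FWM.TaskMA.main ma ?_ hT
      rfl
    exact FWM.square (T := T) hs rfl hT (FWM.wf_of_tree hT)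

end Pool.Agent.Results.MP_2757db_lc.Independence
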